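import Pool.Agent.Helper85.QT.St3

/-!
# Project QT, module LKZ: the quadratic differential far from its poles
-/

set_option autoImplicit false

open MeasureTheory Matrix Set Topology
open scoped ENNReal ComplexConjugate

namespace Pool.Agent.Helper97.QT

open Pool.Agent.Helper85.QT Pool.Agent.Helper86.QA

private lemma log_lower (w : ℂ) : 1 / 2 * min 1 ‖Complex.log w‖ ≤ ‖w - 1‖ := by
  by_cases h : ‖w - 1‖ ≤ 1 / 2
  · have h1 := Complex.norm_log_one_add_half_le_self h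
    rw [add_sub_cancel] at h1
    have h2 := min_le_right 1 ‖Complex.log w‖
    have h3 := norm_nonneg (w - 1)
    linarith
  · have h2 := min_le_left 1 ‖Complex.log w‖
    push Not at h
    linarith

private lemma fd_mul {lam : ℂ} (hl : lam ≠ 0) (ξ η : ℂ) :
    ‖lam‖ * fd lam ξ η = ‖Complex.log (ξ / η)‖ := by
  have : ‖lam‖ ≠ 0 := norm_ne_zero_iff.2 hl
  rw [fd]; field_simp

private lemma dist_lower (hFDC : StFDC) {lam : ℂ} (hl : lam ≠ 0) {ξ a : ℂ} (hξ : ξ ≠ 0)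
    (ha : a ≠ 0) :
    1 / 2 * min 1 (‖lam‖ * fd lam ξ a) * ‖ξ‖ ≤ ‖ξ - a‖ ∧
    1 / 2 * min 1 (‖lam‖ * fd lam ξ a) * ‖a‖ ≤ ‖ξ - a‖ := by
  constructor
  · have h1 := log_lower (a / ξ)
    rw [← fd_mul hl, ← ((hFDC lam hl).1 ξ a).1] at h1
    have e : ‖ξ - a‖ = ‖a / ξ - 1‖ * ‖ξ‖ := by
      rw [← norm_mul, sub_mul, div_mul_cancel₀ _ hξ, one_mul, norm_sub_rev]
    rw [e]
    exact mul_le_mul_of_nonneg_right h1 (norm_nonneg _)
  · have h1 := log_lower (ξ / a)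
    rw [← fd_mul hl] at h1
    have e : ‖ξ - a‖ = ‖ξ / a - 1‖ * ‖a‖ := by
      rw [← norm_mul, sub_mul, div_mul_cancel₀ _ ha, one_mul]
    rw [e]
    exact mul_le_mul_of_nonneg_right h1 (norm_nonneg _)

private lemma th_bound (hFDC : StFDC) {lam a b : ℂ} {r₀ : ℝ} (hl : lam ≠ 0) (ha : a ≠ 0)
    (hb : b ≠ 0) (hr : 0 < r₀) (hlr : ‖lam‖ * r₀ ≤ 1) (hD : 2 * fd lam a b ≤ r₀) {ξ : ℂ}
    (hξ : ξ ≠ 0) (hd : r₀ ≤ fd lam ξ a) :
    ‖th a b ξ‖ ≤ 4096 * fd lam a b ^ 2 * (1 / (r₀ + fd lam ξ a) ^ 4 *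
      (1 / (‖lam‖ ^ 2 * ‖ξ‖ ^ 2))) +
      16384 * ‖lam‖ ^ 2 * fd lam a b ^ 2 * ‖b‖ ^ 2 * (1 / (‖b‖ + ‖ξ‖) ^ 4) := by
  obtain ⟨F1, F2, -⟩ := hFDC lam hl
  have hL : 0 < ‖lam‖ := norm_pos_iff.2 hl
  have hx : 0 < ‖ξ‖ := norm_pos_iff.2 hξ
  have hα : 0 < ‖a‖ := norm_pos_iff.2 ha
  have hβ : 0 < ‖b‖ := norm_pos_iff.2 hb
  have hD0 : 0 ≤ fd lam a b := (F1 a b).2.1
  have hYn := fd_mul hl a b
  obtain ⟨P1, P2⟩ := dist_lower hFDC hl hξ ha
  obtain ⟨Q1, Q2⟩ := dist_lower hFDC hl hξ hb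
  have htri := F2 ξ b a hξ hb ha
  rw [(F1 b a).1] at htri
  -- the distance of a and b
  have hY1 : ‖Complex.log (a / b)‖ ≤ 1 / 2 := by
    rw [← hYn]
    nlinarith
  have hexp : Complex.exp (Complex.log (a / b)) = a / b :=
    Complex.exp_log (div_ne_zero ha hb)
  have hT : ‖a - b‖ ≤ 2 * (‖lam‖ * fd lam a b) * ‖b‖ := by
    have h1 := Complex.norm_exp_sub_one_le (x := Complex.log (a / b)) (by linarith)
    rw [hexp, ← hYn] at h1
    have e : ‖a - b‖ = ‖a / b - 1‖ * ‖b‖ := by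
      rw [← norm_mul, sub_mul, div_mul_cancel₀ _ hb, one_mul]
    rw [e]
    exact mul_le_mul_of_nonneg_right h1 (norm_nonneg _)
  have hαβ : ‖b‖ / 2 ≤ ‖a‖ := by
    have h1 : ‖a / b‖ = Real.exp (Complex.log (a / b)).re := by
      rw [← Complex.norm_exp, hexp]
    have h2 : -(1 / 2) ≤ (Complex.log (a / b)).re := by
      have := Complex.abs_re_le_norm (Complex.log (a / b))
      have := neg_abs_le (Complex.log (a / b)).re
      linarith
    have h3 := Real.add_one_le_exp (Complex.log (a / b)).re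
    have h4 : 1 / 2 ≤ ‖a / b‖ := by rw [h1]; linarith
    rw [norm_div, le_div_iff₀ hβ] at h4
    linarith
  generalize hdd : fd lam ξ a = d at *
  generalize hdb : fd lam ξ b = d' at *
  generalize hDD : fd lam a b = E at *
  generalize hLL : ‖lam‖ = L at *
  generalize hxx : ‖ξ‖ = x at *
  generalize hββ : ‖b‖ = β at *
  generalize hαα : ‖a‖ = α at *
  have hd0 : 0 < d := lt_of_lt_of_le hr hd
  have hd' : d / 2 ≤ d' := by linarith
  have hth : ‖th a b ξ‖ = ‖a - b‖ ^ 2 / (‖ξ - a‖ ^ 2 * ‖ξ - b‖ ^ 2) := by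
    rw [th, norm_div, norm_mul, norm_pow, norm_pow, norm_pow]
  rw [hth]
  have hT0 := norm_nonneg (a - b)
  generalize ‖a - b‖ = T at *
  generalize ‖ξ - a‖ = P at *
  generalize ‖ξ - b‖ = Q at *
  have hT2 : T ^ 2 ≤ (2 * (L * E) * β) ^ 2 := by gcongr
  rcases le_or_gt (L * d) 1 with hcase | hcase
  · -- close
    have m1 : min 1 (L * d) = L * d := min_eq_right hcase
    have m2 : L * d / 2 ≤ min 1 (L * d') := by
      refine le_min (by linarith) ?_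
      nlinarith
    rw [m1] at P1
    have hP : 1 / 2 * (L * d) * x ≤ P := P1
    have hQ : 1 / 4 * (L * d) * β ≤ Q := by
      refine le_trans ?_ Q2
      nlinarith [mul_le_mul_of_nonneg_right m2 hβ.le]
    have hpos1 : 0 < 1 / 2 * (L * d) * x := by positivity
    have hpos2 : 0 < 1 / 4 * (L * d) * β := by positivity
    have hPQ : (1 / 2 * (L * d) * x) ^ 2 * (1 / 4 * (L * d) * β) ^ 2 ≤ P ^ 2 * Q ^ 2 := by
      gcongr
    have h16 : (r₀ + d) ^ 4 ≤ 16 * d ^ 4 := by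
      calc (r₀ + d) ^ 4 ≤ (2 * d) ^ 4 := by gcongr; linarith
        _ = 16 * d ^ 4 := by ring
    have h17 : 1 / d ^ 4 ≤ 16 / (r₀ + d) ^ 4 := by
      rw [div_le_div_iff₀ (by positivity) (by positivity)]
      linarith
    have hsec : 0 ≤ 16384 * L ^ 2 * E ^ 2 * β ^ 2 * (1 / (β + x) ^ 4) := by positivity
    have hfirst : T ^ 2 / (P ^ 2 * Q ^ 2) ≤
        4096 * E ^ 2 * (1 / (r₀ + d) ^ 4 * (1 / (L ^ 2 * x ^ 2))) := by
      calc T ^ 2 / (P ^ 2 * Q ^ 2) ≤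
          (2 * (L * E) * β) ^ 2 / ((1 / 2 * (L * d) * x) ^ 2 * (1 / 4 * (L * d) * β) ^ 2) :=
            div_le_div₀ (by positivity) hT2 (by positivity) hPQ
        _ = 256 * E ^ 2 / (L ^ 2 * x ^ 2) * (1 / d ^ 4) := by
            field_simp
            ring
        _ ≤ 256 * E ^ 2 / (L ^ 2 * x ^ 2) * (16 / (r₀ + d) ^ 4) := by gcongr
        _ = 4096 * E ^ 2 * (1 / (r₀ + d) ^ 4 * (1 / (L ^ 2 * x ^ 2))) := by
            field_simp
            ring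
    linarith
  · -- far
    have m1 : min 1 (L * d) = 1 := min_eq_left hcase.le
    have m2 : 1 / 2 ≤ min 1 (L * d') := by
      refine le_min (by norm_num) ?_
      nlinarith
    rw [m1] at P1 P2
    have hP : (β + x) / 8 ≤ P := by linarith
    have hQ : (β + x) / 8 ≤ Q := by
      have h1 := mul_le_mul_of_nonneg_right m2 hβ.le
      have h2 := mul_le_mul_of_nonneg_right m2 hx.le
      linarith
    have hpos : 0 < (β + x) / 8 := by positivity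
    have hPQ : ((β + x) / 8) ^ 2 * ((β + x) / 8) ^ 2 ≤ P ^ 2 * Q ^ 2 := by gcongr
    have hfirst : 0 ≤ 4096 * E ^ 2 * (1 / (r₀ + d) ^ 4 * (1 / (L ^ 2 * x ^ 2))) := by positivity
    have hsec : T ^ 2 / (P ^ 2 * Q ^ 2) ≤
        16384 * L ^ 2 * E ^ 2 * β ^ 2 * (1 / (β + x) ^ 4) := by
      calc T ^ 2 / (P ^ 2 * Q ^ 2) ≤
          (2 * (L * E) * β) ^ 2 / (((β + x) / 8) ^ 2 * ((β + x) / 8) ^ 2) :=
            div_le_div₀ (by positivity) hT2 (by positivity) hPQ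
        _ = 16384 * L ^ 2 * E ^ 2 * β ^ 2 * (1 / (β + x) ^ 4) := by
            field_simp
            ring
    linarith

/-- the reference integral -/
private noncomputable def KK : ℝ≥0∞ := ∫⁻ x : ℂ, ENNReal.ofReal (1 / (1 + ‖x‖) ^ 4)

private lemma KK_lt : KK < ⊤ := by
  have h := finite_integral_one_add_norm (μ := (volume : Measure ℂ)) (r := 4) (by
    rw [Complex.finrank_real_complex]; norm_num)
  refine lt_of_le_of_lt (le_of_eq ?_) h
  refine lintegral_congr fun x => ?_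
  congr 1
  rw [Real.rpow_neg (by positivity), one_div]
  congr 1
  norm_cast

private lemma scale {s : ℝ} (hs : 0 < s) :
    ∫⁻ x : ℂ, ENNReal.ofReal (1 / (s + ‖x‖) ^ 4) = ENNReal.ofReal (1 / s ^ 2) * KK := by
  have hm : Measurable (fun x : ℂ => ENNReal.ofReal (1 / (1 + ‖x‖) ^ 4)) := by fun_prop
  have h1 : ∫⁻ x : ℂ, ENNReal.ofReal (1 / (1 + ‖s⁻¹ • x‖) ^ 4) =
      ENNReal.ofReal (s ^ 2) * KK := by
    have h2 := lintegral_map (μ := (volume : Measure ℂ)) hm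
      (measurable_const_smul (s⁻¹ : ℝ))
    rw [← h2, Measure.map_addHaar_smul _ (inv_ne_zero hs.ne'), lintegral_smul_measure,
      Complex.finrank_real_complex, KK]
    congr 2
    rw [inv_pow, inv_inv, abs_of_pos (by positivity)]
  have h3 : ∀ x : ℂ, ENNReal.ofReal (1 / (s + ‖x‖) ^ 4) =
      ENNReal.ofReal (1 / s ^ 4) * ENNReal.ofReal (1 / (1 + ‖s⁻¹ • x‖) ^ 4) := by
    intro x
    rw [← ENNReal.ofReal_mul (by positivity)]
    congr 1
    rw [norm_smul, Real.norm_eq_abs, abs_of_pos (inv_pos.2 hs)]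
    have e : s + ‖x‖ = s * (1 + s⁻¹ * ‖x‖) := by field_simp
    rw [e, mul_pow]
    field_simp
  simp_rw [h3]
  rw [lintegral_const_mul' _ _ ENNReal.ofReal_ne_top, h1, ← mul_assoc,
    ← ENNReal.ofReal_mul (by positivity)]
  congr 2
  field_simp

theorem hLKZ (hFDC : StFDC) (hFLT : StFLT) : StLKZ := by
  obtain ⟨k, hk⟩ : ∃ k, k = KK.toReal := ⟨_, rfl⟩
  have hk0 : 0 ≤ k := by rw [hk]; exact ENNReal.toReal_nonneg
  refine ⟨20480 * k + 1, by positivity, ?_⟩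
  intro lam a b r₀ hl ha hb hr hlr hD
  have hL : 0 < ‖lam‖ := norm_pos_iff.2 hl
  have hβ : 0 < ‖b‖ := norm_pos_iff.2 hb
  obtain ⟨E, hE⟩ : ∃ E, E = fd lam a b := ⟨_, rfl⟩
  have hE0 : 0 ≤ E := by rw [hE]; exact ((hFDC lam hl).1 a b).2.1
  have hK : KK = ENNReal.ofReal k := by rw [hk]; exact (ENNReal.ofReal_toReal KK_lt.ne).symm
  have hF := hFLT lam a hl ha (fun ζ => ENNReal.ofReal (1 / (r₀ + ‖ζ‖) ^ 4)) (by fun_prop)
  rw [scale hr] at hF
  have hG := scale hβ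
  have hmeas : MeasurableSet {ξ : ℂ | ξ ≠ 0 ∧ r₀ ≤ fd lam ξ a} := by
    refine MeasurableSet.inter (measurableSet_singleton 0).compl ?_
    exact measurableSet_le measurable_const ((hFDC lam hl).2.2.2.2 a)
  calc ∫⁻ ξ in {ξ : ℂ | ξ ≠ 0 ∧ r₀ ≤ fd lam ξ a}, ENNReal.ofReal ‖th a b ξ‖ ≤
      ∫⁻ ξ in {ξ : ℂ | ξ ≠ 0 ∧ r₀ ≤ fd lam ξ a},
        (ENNReal.ofReal (4096 * E ^ 2) *
          (ENNReal.ofReal (1 / (r₀ + ‖Complex.log (ξ / a) / lam‖) ^ 4) *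
            ENNReal.ofReal (1 / (‖lam‖ ^ 2 * ‖ξ‖ ^ 2))) +
        ENNReal.ofReal (16384 * ‖lam‖ ^ 2 * E ^ 2 * ‖b‖ ^ 2) *
          ENNReal.ofReal (1 / (‖b‖ + ‖ξ‖) ^ 4)) := by
        refine setLIntegral_mono' hmeas fun ξ hξ => ?_
        have h1 := th_bound hFDC hl ha hb hr hlr hD hξ.1 hξ.2
        have e1 : fd lam ξ a = ‖Complex.log (ξ / a) / lam‖ := by rw [fd, norm_div]
        rw [← e1, ← ENNReal.ofReal_mul (by positivity), ← ENNReal.ofReal_mul (by positivity),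
          ← ENNReal.ofReal_mul (by positivity), hE]
        rw [← ENNReal.ofReal_add (by positivity) (by positivity)]
        exact ENNReal.ofReal_le_ofReal h1
    _ ≤ ∫⁻ ξ : ℂ,
        (ENNReal.ofReal (4096 * E ^ 2) *
          (ENNReal.ofReal (1 / (r₀ + ‖Complex.log (ξ / a) / lam‖) ^ 4) *
            ENNReal.ofReal (1 / (‖lam‖ ^ 2 * ‖ξ‖ ^ 2))) +
        ENNReal.ofReal (16384 * ‖lam‖ ^ 2 * E ^ 2 * ‖b‖ ^ 2) *
          ENNReal.ofReal (1 / (‖b‖ + ‖ξ‖) ^ 4)) := setLIntegral_le_lintegral _ _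
    _ = ENNReal.ofReal (4096 * E ^ 2) * (∫⁻ ξ : ℂ,
          (ENNReal.ofReal (1 / (r₀ + ‖Complex.log (ξ / a) / lam‖) ^ 4) *
            ENNReal.ofReal (1 / (‖lam‖ ^ 2 * ‖ξ‖ ^ 2)))) +
        ENNReal.ofReal (16384 * ‖lam‖ ^ 2 * E ^ 2 * ‖b‖ ^ 2) *
          (∫⁻ ξ : ℂ, ENNReal.ofReal (1 / (‖b‖ + ‖ξ‖) ^ 4)) := by
        rw [lintegral_add_right _ (by fun_prop),
          lintegral_const_mul' _ _ ENNReal.ofReal_ne_top,
          lintegral_const_mul' _ _ ENNReal.ofReal_ne_top]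
    _ ≤ ENNReal.ofReal (4096 * E ^ 2) * (ENNReal.ofReal (1 / r₀ ^ 2) * KK) +
        ENNReal.ofReal (16384 * ‖lam‖ ^ 2 * E ^ 2 * ‖b‖ ^ 2) *
          (ENNReal.ofReal (1 / ‖b‖ ^ 2) * KK) := by
        rw [hG]
        gcongr
    _ ≤ ENNReal.ofReal ((20480 * k + 1) * E ^ 2 / r₀ ^ 2) := by
        rw [hK]
        rw [← ENNReal.ofReal_mul (by positivity), ← ENNReal.ofReal_mul (by positivity),
          ← ENNReal.ofReal_mul (by positivity), ← ENNReal.ofReal_mul (by positivity),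
          ← ENNReal.ofReal_add (by positivity) (by positivity)]
        refine ENNReal.ofReal_le_ofReal ?_
        have hl2 : ‖lam‖ ^ 2 ≤ 1 / r₀ ^ 2 := by
          rw [le_div_iff₀ (by positivity), ← mul_pow]
          exact pow_le_one₀ (by positivity) hlr
        have e1 : 16384 * ‖lam‖ ^ 2 * E ^ 2 * ‖b‖ ^ 2 * (1 / ‖b‖ ^ 2 * k) =
            16384 * E ^ 2 * k * ‖lam‖ ^ 2 := by field_simp
        have e2 : 16384 * E ^ 2 * k * ‖lam‖ ^ 2 ≤ 16384 * E ^ 2 * k * (1 / r₀ ^ 2) := by gcongr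
        have e3 : 0 ≤ E ^ 2 * (1 / r₀ ^ 2) := by positivity
        rw [e1]
        calc 4096 * E ^ 2 * (1 / r₀ ^ 2 * k) + 16384 * E ^ 2 * k * ‖lam‖ ^ 2 ≤
            4096 * E ^ 2 * (1 / r₀ ^ 2 * k) + 16384 * E ^ 2 * k * (1 / r₀ ^ 2) +
              E ^ 2 * (1 / r₀ ^ 2) := by linarith
          _ = (20480 * k + 1) * E ^ 2 / r₀ ^ 2 := by ring
    _ = ENNReal.ofReal ((20480 * k + 1) * fd lam a b ^ 2 / r₀ ^ 2) := by rw [hE]

end Pool.Agent.Helper97.QT
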